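import Pool.Agent.H21.L.R_seed8.W187.S2.Sums

/-! Project S2: the law for the rotated original products. -/

set_option autoImplicit false

namespace Pool.Agent.W187.S2

open Complex MeasureTheory Filter Topology Set
open scoped Classical
open Pool.Agent.W189.ML Pool.Agent.W263.BSD Pool.Agent.W187.UR
open Pool.Agent.W189.LC hiding cf

variable {a b : ℤ} {F : ℂ → ℂ}

/-- functions bounded in the sector give admissible integrands -/
theorem adm_sector {G : ℂ → ℂ} {C γ : ℝ} (hγ : 0 ≤ γ)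
    (hd : ∀ w : ℂ, 0 < w.re → DifferentiableAt ℂ G w)
    (hb : ∀ w : ℂ, 0 < w.re → ‖w‖ ≤ 5 * w.re → ‖G w‖ ≤ C) {T : ℝ} (hT : 1 + γ ≤ T) :
    Adm (2 * T) (fun z => G ((z - γ * I) / T)) := by
  have hT0 : 0 < T := by linarith
  have hpi4 := Real.pi_lt_four
  have hre : ∀ z : ℂ, ((z - γ * I) / T).re = z.re / T := fun z => by simp
  have hpos : ∀ z ∈ HS (2 * T), 0 < ((z - γ * I) / T).re := by
    intro z hz
    rw [hre]
    have : 0 < z.re := by have := hz.1; linarith
    positivity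
  refine ⟨fun z hz => ?_, |C|, 0, abs_nonneg _, le_rfl, fun z hz => ?_⟩
  · have h1 : DifferentiableAt ℂ (fun z : ℂ => G ((z - γ * I) / T)) z :=
      DifferentiableAt.comp (g := G) (f := fun z : ℂ => (z - γ * I) / T) z (hd _ (hpos z hz))
        (by fun_prop)
    exact h1.continuousAt.continuousWithinAt
  · have hz1 : 1 + γ ≤ z.re := by have := hz.1; linarith
    have h5 := abs_le.1 hz.2
    have h1 : ‖z - γ * I‖ ≤ 5 * z.re := by
      have e1 := Complex.norm_le_abs_re_add_abs_im (z - γ * I)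
      have e2 : (z - γ * I).re = z.re := by simp
      have e3 : (z - γ * I).im = z.im - γ := by simp
      rw [e2, e3, abs_of_pos (by linarith)] at e1
      have e4 : |z.im - γ| ≤ Real.pi + γ := by
        rw [abs_le]; constructor <;> linarith [h5.1, h5.2]
      nlinarith
    have h2 : ‖(z - γ * I) / T‖ ≤ 5 * ((z - γ * I) / T).re := by
      rw [hre, norm_div, Complex.norm_real, Real.norm_eq_abs, abs_of_pos hT0, mul_div_assoc']
      exact div_le_div_of_nonneg_right h1 hT0.le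
    have h3 := hb _ (hpos z hz) h2
    rw [zero_mul, add_zero]
    exact h3.trans (le_abs_self _)

/-- the finite constant -/
noncomputable def sig (a b : ℤ) : ℂ :=
  ∑ p ∈ Finset.range 25, if p < 25 ∧ GoodPrime a b p then (lp a b p : ℂ) else 0

theorem exp_sig (a b : ℤ) : exp (sig a b) = small a b 0 := by
  unfold sig small
  rw [Complex.exp_sum]
  refine Finset.prod_congr rfl fun p hp => ?_
  have hp25 : p < 25 := Finset.mem_range.1 hp
  by_cases hg : GoodPrime a b p
  · rw [if_pos ⟨hp25, hg⟩, if_pos hg]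
    have hp0 : (p : ℂ) ≠ 0 := by exact_mod_cast hg.1.ne_zero
    have hp0' : (0 : ℝ) < p := by exact_mod_cast hg.1.pos
    unfold Pool.Agent.W263.BSD.lp ef
    rw [← Complex.ofReal_exp, Real.exp_log (by positivity)]
    have h1 : (p : ℂ) ^ (-(1 + 0 : ℂ)) = 1 / p := by
      rw [show (-(1 + 0) : ℂ) = -1 by ring, Complex.cpow_neg_one, one_div]
    have h2 : (p : ℂ) ^ (1 - 2 * (1 + 0) : ℂ) = 1 / p := by
      rw [show (1 - 2 * (1 + 0) : ℂ) = -1 by ring, Complex.cpow_neg_one, one_div]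
    rw [h1, h2]
    push_cast
    field_simp
    ring
  · rw [if_neg (fun h => hg h.2), if_neg hg, Complex.exp_zero]

theorem f1_tendsto (a b : ℤ) (c : ℝ) :
    Tendsto (fun T : ℝ => ∑ p ∈ Finset.range 25, f1 a b c T p) atTop (𝓝 (sig a b)) := by
  unfold sig
  refine tendsto_finsetSum _ fun p _ => ?_
  unfold f1
  split_ifs with h
  · have h1 := (kk_T c (Real.log p)).1.mul_const (lp a b p : ℂ)
    rwa [one_mul] at h1
  · exact tendsto_const_nhds

theorem f2_tendsto (a b : ℤ) (c : ℝ) :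
    Tendsto (fun T : ℝ => ∑ p ∈ Finset.range 25, f2 a b c T p) atTop (𝓝 0) := by
  have h0 : (0 : ℂ) = ∑ p ∈ Finset.range 25, 0 := by simp
  rw [h0]
  refine tendsto_finsetSum _ fun p _ => ?_
  unfold f2
  split_ifs with h
  · have h1 := ((kk_T c (Real.log p)).1.sub (kk_T c (Real.log p)).2).mul_const
      (((((p : ℝ) - pointCount a b p) ^ 2 - 2 * p) / (2 * (p : ℝ) ^ 2) : ℝ) : ℂ)
    rwa [sub_self, zero_mul] at h1
  · exact tendsto_const_nhds

/-- the logarithmic form of the law -/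
theorem star_add (hjlim : S_JLIM) (hmm : S_MM) (hjmm : S_JMM) (href : S_REFG)
    (hF : IsLSeries a b F) {r : ℕ} (hr : analyticOrderAt F 1 = r) :
    ∃ r₀ : ℂ, exp r₀ = iteratedDeriv r F 1 / (r.factorial : ℂ) * small a b 0 ∧
      ∀ c : ℝ, Real.pi / 2 < c →
      Tendsto (fun X : ℝ => pStar a b c X - r * Real.log (Real.log X)) atTop
        (𝓝 (-(r * Lam c) - r₀ + sig a b)) := by
  obtain ⟨η, B, L, r₀, hL, hL2, hexp⟩ := phi_bel hF hr
  refine ⟨r₀, hexp, fun c hc => ?_⟩
  have hc0 : 0 ≤ c := by have := Real.pi_pos; linarith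
  have E := eData a b
  have D : SData (fun p : ℕ => Real.log p) (cf a b) (GG (SS a b) (Ap a b)) := sdata E
  obtain ⟨hMd, ⟨CM, hMb⟩, hMl⟩ := hmm (SS a b) (Ap a b) E
  obtain ⟨CG, hGb⟩ := D.Gb
  obtain ⟨C, T₀, hC, hT₀, hT⟩ := href (fun p : ℕ => Real.log p) (cf a b) (GG (SS a b) (Ap a b)) D c hc
    r r₀ L η B hL hL2
  rw [Lam_eq] at hT
  -- the four limits
  have h1 : Tendsto (fun T : ℝ => cmean (fun p : ℕ => Real.log p) (cf a b) c T -
      J (2 * T) (fun z => GG (SS a b) (Ap a b) ((z - c * I) / T)) -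
      (((r : ℤ) : ℂ) * Real.log T - ((r : ℤ) : ℂ) * Lam c - r₀)) atTop (𝓝 0) := by
    refine squeeze_zero_norm' ?_ (tendsto_const_nhds.div_atTop tendsto_id : Tendsto
      (fun T : ℝ => C / T) atTop (𝓝 0))
    filter_upwards [eventually_ge_atTop T₀] with T h
    exact hT T h
  have h2 := hjlim (fun w => GG (SS a b) (Ap a b) w - MM (SS a b) (Ap a b) w) (CG + CM) c 0 hc0
    (fun w hw => (D.Gd w hw).sub (hMd w hw))
    (fun w hw hw5 => (norm_sub_le _ _).trans (add_le_add (hGb w hw hw5) (hMb w hw hw5)))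
    (fun ζ hζ => hMl ζ hζ)
  have h3 := f1_tendsto a b c
  have h4 := f2_tendsto a b c
  have h5 := ((h1.add h2).add (h3.add h4)).add_const (-(r * Lam c) - r₀)
  have e0 : (0 : ℂ) + 0 + (sig a b + 0) + (-(r * Lam c) - r₀) = -(r * Lam c) - r₀ + sig a b := by
    ring
  rw [e0] at h5
  have hlog := Real.tendsto_log_atTop
  refine (h5.comp hlog).congr' ?_
  filter_upwards [hlog.eventually (eventually_ge_atTop (1 + c)), eventually_gt_atTop 1] with X hX hX1
  have hX1' : 1 ≤ Real.log X := by linarith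
  simp only [Function.comp_apply]
  have hb0 : 0 ≤ 2 * Real.log X := by linarith
  rw [pStar_eq hjmm c hX1 hX1', pSum_eq c hX1]
  have h6 := J_sub hb0 (adm_sector hc0 D.Gd hGb hX) (adm_sector hc0 hMd hMb hX)
  rw [h6]
  push_cast
  ring

/-- the logarithmic form of the law for the original products -/
theorem sum_add (hjlim : S_JLIM) (hmm : S_MM) (hjmm : S_JMM) (hrs : S_RS)
    (hΔ : 4 * a ^ 3 + 27 * b ^ 2 ≠ 0) (hRS : Tendsto (rsSum a b) atTop (𝓝 0)) {c : ℝ} (hc0 : 0 ≤ c)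
    {r : ℕ} {κ : ℂ}
    (h : Tendsto (fun X : ℝ => pStar a b c X - r * Real.log (Real.log X)) atTop (𝓝 κ)) :
    Tendsto (fun X : ℝ => pSum a b c X - r * Real.log (Real.log X)) atTop
      (𝓝 (κ + (Real.log 2 / 2 : ℝ))) := by
  have E := eData a b
  obtain ⟨hMd, ⟨CM, hMb⟩, hMl⟩ := hmm (SS a b) (Ap a b) E
  have h2 := hjlim (MM (SS a b) (Ap a b)) CM c ((Real.log 2 / 2 : ℝ) : ℂ) hc0 hMd hMb
    (fun ζ hζ => hrs a b hΔ hRS ζ hζ)
  have h4 := f2_tendsto a b c
  have hlog := Real.tendsto_log_atTop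
  have h5 := (h.add (h2.comp hlog)).sub (h4.comp hlog)
  rw [sub_zero] at h5
  refine h5.congr' ?_
  filter_upwards [hlog.eventually (eventually_ge_atTop (1 : ℝ)), eventually_gt_atTop 1] with X hX hX1
  simp only [Function.comp_apply]
  rw [pStar_eq hjmm c hX1 hX]
  ring

/-- exponentials -/
theorem exp_lim {P : ℝ → ℂ} {r : ℕ} {κ : ℂ}
    (h : Tendsto (fun X : ℝ => P X - r * Real.log (Real.log X)) atTop (𝓝 κ)) :
    Tendsto (fun X : ℝ => exp (P X) / (Real.log X : ℂ) ^ r) atTop (𝓝 (exp κ)) := by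
  refine ((Complex.continuous_exp.tendsto κ).comp h).congr' ?_
  filter_upwards [Real.tendsto_log_atTop.eventually (eventually_gt_atTop 0)] with X hX
  simp only [Function.comp_apply]
  have h1 : (Real.log X : ℂ) ^ r = exp (r * Real.log (Real.log X)) := by
    rw [Complex.exp_nat_mul, ← Complex.ofReal_exp, Real.exp_log hX]
  rw [h1, Complex.exp_sub]

/-- uniqueness of exponent and constant -/
theorem pow_unique {f : ℝ → ℂ} {m ρ : ℕ} {c₁ c₀ : ℂ}
    (h1 : Tendsto (fun X => f X / (Real.log X : ℂ) ^ m) atTop (𝓝 c₁))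
    (h0 : Tendsto (fun X => f X / (Real.log X : ℂ) ^ ρ) atTop (𝓝 c₀)) (hc₁ : c₁ ≠ 0)
    (hc₀ : c₀ ≠ 0) : m = ρ ∧ c₁ = c₀ := by
  have key : ∀ {m ρ : ℕ} {c₁ c₀ : ℂ}, m < ρ →
      Tendsto (fun X => f X / (Real.log X : ℂ) ^ m) atTop (𝓝 c₁) →
      Tendsto (fun X => f X / (Real.log X : ℂ) ^ ρ) atTop (𝓝 c₀) → c₀ = 0 := by
    intro m ρ c₁ c₀ hlt h1 h0
    have h2 : Tendsto (fun X : ℝ => ((Real.log X : ℂ) ^ (ρ - m))⁻¹) atTop (𝓝 0) := by
      rw [tendsto_zero_iff_norm_tendsto_zero]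
      have h3 : Tendsto (fun X : ℝ => (Real.log X ^ (ρ - m))⁻¹) atTop (𝓝 0) :=
        ((tendsto_pow_atTop (by omega)).comp Real.tendsto_log_atTop).inv_tendsto_atTop
      refine h3.congr' ?_
      filter_upwards [Real.tendsto_log_atTop.eventually (eventually_gt_atTop 0)] with X hX
      rw [norm_inv, norm_pow, Complex.norm_real, Real.norm_eq_abs, abs_of_pos hX]
    have h3 := h1.mul h2
    rw [mul_zero] at h3
    refine tendsto_nhds_unique h0 (h3.congr' ?_)
    filter_upwards [Real.tendsto_log_atTop.eventually (eventually_gt_atTop 0)] with X hX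
    have hXc : (Real.log X : ℂ) ≠ 0 := by exact_mod_cast hX.ne'
    have h4 : (Real.log X : ℂ) ^ ρ = (Real.log X : ℂ) ^ m * (Real.log X : ℂ) ^ (ρ - m) := by
      rw [← pow_add]; congr 1; omega
    rw [h4]
    field_simp
  rcases lt_trichotomy m ρ with h | h | h
  · exact absurd (key h h1 h0) hc₀
  · subst h
    exact ⟨rfl, tendsto_nhds_unique h1 h0⟩
  · exact absurd (key h h0 h1) hc₁

end Pool.Agent.W187.S2
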