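import Pool.Agent.H21.L.R_seed8.W187.S2.Phi

/-! Project S2: the rotated original products and their finite parts. -/

set_option autoImplicit false

namespace Pool.Agent.W187.S2

open Complex MeasureTheory Filter Topology Set
open scoped Classical
open Pool.Agent.W189.ML Pool.Agent.W263.BSD Pool.Agent.W187.UR
open Pool.Agent.W189.LC hiding cf

/-- the term `K(log p / log X) log ((N_p + 1)/p)` of the prime `p ∤ 2Δ`, `K(u) = e^{icu} / Γ(1 + u)` -/
noncomputable def pterm (a b : ℤ) (c X : ℝ) (p : ℕ) : ℂ :=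
  if GoodPrime a b p then kk c (Real.log p / Real.log X) *
    (Real.log (((pointCount a b p : ℝ) + 1) / p) : ℝ) else 0

/-- the second order term `(K(log p / log X) - K(2 log p / log X)) (a_p² - 2p)/(2p²)` of the prime
`p ∤ 2Δ`, `a_p = p - N_p` -/
noncomputable def cterm (a b : ℤ) (c X : ℝ) (p : ℕ) : ℂ :=
  if GoodPrime a b p then (kk c (Real.log p / Real.log X) - kk c (2 * (Real.log p / Real.log X))) *
    (((((p : ℝ) - pointCount a b p) ^ 2 - 2 * p) / (2 * (p : ℝ) ^ 2) : ℝ) : ℂ) else 0

/-- `log` of the rotated product: `∑_p K(log p / log X) log ((N_p + 1)/p)` -/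
noncomputable def pSum (a b : ℤ) (c X : ℝ) : ℂ := ∑' p : ℕ, pterm a b c X p

/-- the same with the second order correction -/
noncomputable def pStar (a b : ℤ) (c X : ℝ) : ℂ := ∑' p : ℕ, (pterm a b c X p + cterm a b c X p)

variable {a b : ℤ}

theorem kk_zero (c : ℝ) : kk c 0 = 1 := by
  unfold kk om
  simp

theorem kk_tendsto (c : ℝ) : Tendsto (kk c) (𝓝 0) (𝓝 1) := by
  have h1 : ContinuousAt (kk c) 0 := by
    unfold kk om
    refine ContinuousAt.mul (by fun_prop) ?_
    refine Complex.continuous_ofReal.continuousAt.comp (ContinuousAt.inv₀ ?_ ?_)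
    · refine ContinuousAt.comp (g := Real.Gamma) (f := fun u : ℝ => 1 + u) ?_ (by fun_prop)
      refine (Real.differentiableAt_Gamma fun m => ?_).continuousAt
      have : (0 : ℝ) ≤ m := Nat.cast_nonneg m
      simp only [add_zero]
      linarith
    · simp
  have h2 := h1.tendsto
  rwa [kk_zero] at h2

theorem kk_T (c l : ℝ) : Tendsto (fun T : ℝ => kk c (l / T)) atTop (𝓝 1) ∧
    Tendsto (fun T : ℝ => kk c (2 * (l / T))) atTop (𝓝 1) := by
  have h1 : Tendsto (fun T : ℝ => l / T) atTop (𝓝 0) := tendsto_const_nhds.div_atTop tendsto_id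
  have h2 : Tendsto (fun T : ℝ => 2 * (l / T)) atTop (𝓝 0) := by
    have := h1.const_mul 2
    rwa [mul_zero] at this
  exact ⟨(kk_tendsto c).comp h1, (kk_tendsto c).comp h2⟩

/-- the main part of the term -/
noncomputable def mterm (a b : ℤ) (c T : ℝ) (p : ℕ) : ℂ :=
  (cf a b p : ℂ) * exp ((c * (Real.log p / T) : ℝ) * I) * (om (Real.log p / T) : ℂ)

/-- the small primes -/
noncomputable def f1 (a b : ℤ) (c T : ℝ) (p : ℕ) : ℂ :=
  if p < 25 ∧ GoodPrime a b p then kk c (Real.log p / T) * (lp a b p : ℂ) else 0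

noncomputable def f2 (a b : ℤ) (c T : ℝ) (p : ℕ) : ℂ :=
  if p < 25 ∧ GoodPrime a b p then (kk c (Real.log p / T) - kk c (2 * (Real.log p / T))) *
    (((((p : ℝ) - pointCount a b p) ^ 2 - 2 * p) / (2 * (p : ℝ) ^ 2) : ℝ) : ℂ) else 0

theorem pterm_eq (c X : ℝ) (p : ℕ) :
    pterm a b c X p = mterm a b c (Real.log X) p + f1 a b c (Real.log X) p := by
  unfold pterm mterm f1 cf
  by_cases hg : GoodPrime a b p
  · by_cases h25 : 25 ≤ p
    · have hS : p ∈ SS a b := ⟨hg, h25⟩
      rw [if_pos hg, if_pos hS, if_neg (by omega), cc_eq_lp (by omega), add_zero]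
      unfold Pool.Agent.W263.BSD.lp kk
      ring
    · have hS : p ∉ SS a b := fun h => h25 h.2
      rw [if_pos hg, if_neg hS, if_pos ⟨by omega, hg⟩]
      unfold Pool.Agent.W263.BSD.lp
      simp
  · have hS : p ∉ SS a b := fun h => hg h.1
    rw [if_neg hg, if_neg hS, if_neg (fun h => hg h.2)]
    simp

theorem cterm_eq (c X : ℝ) (p : ℕ) :
    cterm a b c X p = -cmt (SS a b) (Ap a b) c (Real.log X) p + f2 a b c (Real.log X) p := by
  unfold cterm cmt f2
  by_cases hg : GoodPrime a b p
  · by_cases h25 : 25 ≤ p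
    · have hS : p ∈ SS a b := ⟨hg, h25⟩
      rw [if_pos hg, if_pos hS, if_neg (by omega), add_zero]
      have h1 : ((((p : ℝ) - pointCount a b p) ^ 2 - 2 * p) / (2 * (p : ℝ) ^ 2) : ℝ) =
          -mm (Ap a b) p := by
        have hp0 : (p : ℝ) ≠ 0 := by exact_mod_cast (show p ≠ 0 by omega)
        unfold mm tt Ap
        rw [dl_sq (by omega)]
        field_simp
        ring
      rw [h1]
      push_cast
      ring
    · have hS : p ∉ SS a b := fun h => h25 h.2
      rw [if_pos hg, if_neg hS, if_pos ⟨by omega, hg⟩]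
      simp
  · have hS : p ∉ SS a b := fun h => hg h.1
    rw [if_neg hg, if_neg hS, if_neg (fun h => hg h.2)]
    simp

theorem f1_zero (c T : ℝ) {p : ℕ} (hp : p ∉ Finset.range 25) : f1 a b c T p = 0 := by
  rw [Finset.mem_range] at hp
  unfold f1
  rw [if_neg (fun h => hp h.1)]

theorem f2_zero (c T : ℝ) {p : ℕ} (hp : p ∉ Finset.range 25) : f2 a b c T p = 0 := by
  rw [Finset.mem_range] at hp
  unfold f2
  rw [if_neg (fun h => hp h.1)]

theorem norm_mterm (c T : ℝ) (p : ℕ) : ‖mterm a b c T p‖ = |cf a b p * om (Real.log p / T)| := by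
  unfold mterm
  rw [norm_mul, norm_mul, Complex.norm_exp_ofReal_mul_I, mul_one, Complex.norm_real,
    Complex.norm_real, Real.norm_eq_abs, Real.norm_eq_abs, abs_mul]

theorem mterm_sum (c : ℝ) {T : ℝ} (hT : 0 < T) : Summable fun p => ‖mterm a b c T p‖ := by
  simp only [norm_mterm]
  exact cf_summable hT

theorem pterm_summable (c : ℝ) {X : ℝ} (hX : 1 < X) : Summable fun p => ‖pterm a b c X p‖ := by
  have hT := Real.log_pos hX
  have h1 : Summable fun p => ‖f1 a b c (Real.log X) p‖ :=
    summable_of_ne_finset_zero (s := Finset.range 25) fun p hp => by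
      rw [f1_zero c _ hp, norm_zero]
  refine Summable.of_nonneg_of_le (fun p => norm_nonneg _) (fun p => ?_) ((mterm_sum (a := a) (b := b) c hT).add h1)
  rw [pterm_eq]
  exact norm_add_le _ _

/-- the rotated product in terms of the mean -/
theorem pSum_eq (c : ℝ) {X : ℝ} (hX : 1 < X) : pSum a b c X =
    cmean (fun p : ℕ => Real.log p) (cf a b) c (Real.log X) +
      ∑ p ∈ Finset.range 25, f1 a b c (Real.log X) p := by
  have hT := Real.log_pos hX
  unfold pSum
  simp only [pterm_eq]
  rw [(mterm_sum c hT).of_norm.tsum_add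
    (summable_of_ne_finset_zero (s := Finset.range 25) fun p hp => f1_zero c _ hp),
    tsum_eq_sum (s := Finset.range 25) fun p hp => f1_zero c _ hp]
  rfl

theorem pStar_eq (hjmm : S_JMM) (c : ℝ) {X : ℝ} (hX1 : 1 < X) (hX : 1 ≤ Real.log X) : pStar a b c X =
    pSum a b c X - J (2 * Real.log X) (fun z => MM (SS a b) (Ap a b) ((z - c * I) / Real.log X)) +
      ∑ p ∈ Finset.range 25, f2 a b c (Real.log X) p := by
  obtain ⟨hs, hJ⟩ := hjmm (SS a b) (Ap a b) (eData a b) c (Real.log X) hX
  rw [hJ]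
  unfold pStar pSum
  simp only [cterm_eq]
  have h2 : Summable fun p => -cmt (SS a b) (Ap a b) c (Real.log X) p + f2 a b c (Real.log X) p :=
    hs.of_norm.neg.add
      (summable_of_ne_finset_zero (s := Finset.range 25) fun p hp => f2_zero c _ hp)
  rw [(pterm_summable c hX1).of_norm.tsum_add h2, hs.of_norm.neg.tsum_add
    (summable_of_ne_finset_zero (s := Finset.range 25) fun p hp => f2_zero c _ hp), tsum_neg,
    tsum_eq_sum (s := Finset.range 25) fun p hp => f2_zero c _ hp]
  ring

end Pool.Agent.W187.S2
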